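import Pool.Agent.Lib.helper3.BishopF

set_option autoImplicit false
open MeasureTheory H3Bis

namespace Pool.Agent.Results.MP_ca8afd_an.Counterexample

variable {S : Type} [TopologicalSpace S] [CompactSpace S] [MeasurableSpace S] [BorelSpace S]

/-- `A_σ`, the weak-star closure of (the classes of) `A` in `L^∞(σ)`. -/
def Asig (A : Subalgebra ℂ C(S, ℂ)) (σ : FiniteMeasure S) : Set (Linf σ) := wcl σ (cls A σ)

/-- (H1): every real-valued element of `M` is constant almost everywhere. -/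
def H1 (σ : FiniteMeasure S) (M : Set (Linf σ)) : Prop :=
  ∀ F ∈ M, (∀ᵐ s ∂(σ : Measure S), (fn F s).im = 0) → ∃ c : ℂ, ∀ᵐ s ∂(σ : Measure S), fn F s = c

/-- `Φ` is an isomorphism of complex algebras from `M ⊆ L^∞(σ)` (with the almost everywhere
pointwise operations) onto `H^∞(𝔻)`. -/
def IsIso (σ : FiniteMeasure S) (M : Set (Linf σ))
    (Φ : Linf σ → Metric.ball (0 : ℂ) 1 → ℂ) : Prop :=
  Set.BijOn Φ M Hinf ∧
  (∀ F ∈ M, ∀ G ∈ M, ∀ H ∈ M, (∀ᵐ s ∂(σ : Measure S), fn H s = fn F s + fn G s) →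
    ∀ z, Φ H z = Φ F z + Φ G z) ∧
  (∀ c : ℂ, ∀ F ∈ M, ∀ H ∈ M, (∀ᵐ s ∂(σ : Measure S), fn H s = c * fn F s) →
    ∀ z, Φ H z = c * Φ F z) ∧
  (∀ F ∈ M, ∀ G ∈ M, ∀ H ∈ M, (∀ᵐ s ∂(σ : Measure S), fn H s = fn F s * fn G s) →
    ∀ z, Φ H z = Φ F z * Φ G z)

/-- There are a compact metric space `S`, an algebra `A` with (i), (ii) and a finite positive
measure `σ` whose support has more than one point, satisfying (H1) and (H2), such that `A_σ` is not
isomorphic to `H^∞(𝔻)`. -/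
theorem result :
    ∃ (S : Type) (_ : MetricSpace S) (_ : CompactSpace S) (_ : MeasurableSpace S)
      (_ : BorelSpace S) (A : Subalgebra ℂ C(S, ℂ)) (σ : FiniteMeasure S),
      Bishop A ∧ (σ : Measure S).support.Nontrivial ∧ H1 σ (Asig A σ) ∧
      wcl σ (clsSum A σ) = Set.univ ∧ ¬ ∃ Φ, IsIso σ (Asig A σ) Φ := by
  refine ⟨SL, inferInstance, inferInstance, inferInstance, inferInstance, AL, sig, bishop_AL,
    supp_sig, H1_sig, H2_sig, ?_⟩
  rintro ⟨Φ, hb, -, hs, hm⟩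
  obtain ⟨F, hF, G, hG, hF0, hG0, hFG⟩ := zero_div
  have h0 : (0 : Linf sig) ∈ Asig AL sig := subset_wcl _ _ (clsM AL sig).zero_mem
  have hF' : F ∈ Asig AL sig := subset_wcl _ _ hF
  have hG' : G ∈ Asig AL sig := subset_wcl _ _ hG
  have e0 : Φ 0 = 0 := by
    funext z
    have := hs 0 0 h0 0 h0 (by
      filter_upwards [Lp.coeFn_zero ℂ ⊤ (sig : Measure SL)] with s a
      simpa [fn] using a) z
    simpa using this
  have e1 : Φ F * Φ G = 0 := by
    funext z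
    rw [Pi.mul_apply, ← hm F hF' G hG' 0 h0 hFG z, e0]
  rcases Hinf_domain (hb.mapsTo hF') (hb.mapsTo hG') e1 with h | h
  · exact hF0 (hb.injOn hF' h0 (h.trans e0.symm))
  · exact hG0 (hb.injOn hG' h0 (h.trans e0.symm))

end Pool.Agent.Results.MP_ca8afd_an.Counterexample
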